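import Pool.Agent.MWLQ.StmtsA

/-!
# MWLQ, row RIG: the second `x` is in front of the last light (twin of MWLE.RIG of helper80)
-/

namespace Pool.Agent.MWLQ.H88

open Pool.Agent.Helper14_MV
open Pool.Agent.Helper2_MV
open Pool.Agent.MWK (pre)
open Pool.Agent.MWGN (nn Tau gh)
open Pool.Agent.MWGQ (pw Z Gn E0 A0 P0)
open Pool.Agent.MWLE (pin sep con tl tll Sg t1 Fc Fb Fy Fx Fu Fz rz sf k0)

theorem pw1 (k x : ℕ) : pw k [x] = List.replicate k x := by
  induction k with
  | zero => rfl
  | succ k ih =>
    have : pw (k + 1) [x] = [x] ++ pw k [x] := by simp [pw, List.replicate_succ]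
    rw [this, ih, List.replicate_succ]
    rfl

theorem rig (hP : MWGQ.PwxStmt) (hD : DdcStmt) (hL : LerStmt) : RigStmt := by
  intro n β hG m τ hτ hB x S L C hnd Q A v R hv1 hv2 hv3 hV
  have hn := hG.pos
  have tr : ∀ {a b c : List ℕ}, RR β a b → RR β b c → RR β a c := fun h1 h2 => β.trans h1 h2
  have cns : ∀ {a b : List ℕ}, RR β a b →
      RR β (List.replicate n x ++ a) (List.replicate n x ++ b) := by
    intro a b h
    exact (RR.refl (β := β) (List.replicate n x)).append h
  have h1 : RR β (dn n A ++ x :: (dq n Q v ++ x :: R))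
      (List.replicate (n + 1) x ++ (dn n A ++ (dq n Q v ++ x :: R))) := by
    have h2 := hB Q (dn n A) v R x hv1 hv2 hv3
    have h3 := (hD n β hG A [x] [] (dq n Q v ++ x :: R)).1 (n + 1) (by omega)
    simp only [List.nil_append, pw1] at h3
    exact tr h2 h3
  have sq : ∀ B : List ℕ, RR β (List.replicate n x ++ (List.replicate (n + 1) x ++ B))
      (List.replicate (n + 1) x ++ B) := by
    intro B
    have h := (hP n β hG).1 [x] (n + (n + 1)) (n + 1) (by omega) (by omega)
      (by simp [Nat.ModEq])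
    rw [pw1, pw1, List.replicate_add] at h
    have h' := h.append (RR.refl (β := β) B)
    rw [List.append_assoc] at h'
    exact h'
  have h4 : RR β (List.replicate n x ++ (dn n A ++ x :: (dq n Q v ++ x :: R)))
      (dn n A ++ x :: (dq n Q v ++ x :: R)) :=
    tr (cns h1) (tr (sq _) (RR.symm h1))
  have h5 : RR β (x :: (lw4 n L C (m + 1) ++ (x :: tll S L τ)))
      (List.replicate n x ++ (x :: (lw4 n L C (m + 1) ++ (x :: tll S L τ)))) :=
    tr (RR.symm hV) (tr (RR.symm h4) (cns hV))
  refine hL n β hG m τ hτ x S L C hnd ?_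
  have e : List.replicate (n + 1) x ++ (lw4 n L C (m + 1) ++ (x :: tll S L τ)) =
      List.replicate n x ++ (x :: (lw4 n L C (m + 1) ++ (x :: tll S L τ))) := by
    rw [List.replicate_succ', List.append_assoc]
    rfl
  rw [e]
  exact h5

end Pool.Agent.MWLQ.H88
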